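import Mathlib

/-! The least arity of the Wielandt closure which covers the Galois closed groups: `w(n, k) = n - ⌈n / k⌉`. -/

set_option autoImplicit false

namespace Pool.Agent.Results.MP_4c291d_al.ClosureArity

open Equiv Finset

/-- The group `G` of permutations of an `n`-element set is Galois closed over a `k`-element set: it is the invariance group of a set
`F` of functions of `n` variables on the `k`-element set, where `σ` leaves `f` invariant if `f (a_(1σ), ..., a_(nσ)) = f (a_1, ..., a_n)`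
for all `a`. -/
def GaloisClosed {n : ℕ} (k : ℕ) (G : Subgroup (Perm (Fin n))) : Prop :=
  ∃ F : Set ((Fin n → Fin k) → Fin k), ∀ σ : Perm (Fin n), σ ∈ G ↔ ∀ f ∈ F, ∀ a : Fin n → Fin k, f (fun i => a (σ i)) = f a

/-- The group `G` is `m`-closed: there is a set `R` of `m`-ary relations such that `G` consists of the permutations which
preserve all members of `R`. -/
def WielandtClosed {n : ℕ} (m : ℕ) (G : Subgroup (Perm (Fin n))) : Prop :=
  ∃ R : Set (Set (Fin m → Fin n)), ∀ σ : Perm (Fin n), σ ∈ G ↔ ∀ ρ ∈ R, ∀ r ∈ ρ, (fun j => σ (r j)) ∈ ρ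

lemma exists_tuple {n m : ℕ} (hn : 0 < n) (M : Finset (Fin n)) (hM : M.card ≤ m) (hm : 0 < m) :
    ∃ r : Fin m → Fin n, ∀ i ∈ M, ∃ j, r j = i := by
  classical
  by_cases h0 : M.card = 0
  · refine ⟨fun _ => ⟨0, hn⟩, fun i hi => ?_⟩
    rw [Finset.card_eq_zero.1 h0] at hi
    exact absurd hi (Finset.notMem_empty i)
  · let e := M.equivFin
    have hpos : 0 < M.card := Nat.pos_of_ne_zero h0
    refine ⟨fun j => if h : (j : ℕ) < M.card then (e.symm ⟨j, h⟩ : Fin n) else (e.symm ⟨0, hpos⟩ : Fin n), fun i hi => ?_⟩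
    refine ⟨⟨(e ⟨i, hi⟩ : ℕ), (e ⟨i, hi⟩).2.trans_le hM⟩, ?_⟩
    have h1 : ((e ⟨i, hi⟩ : ℕ)) < M.card := (e ⟨i, hi⟩).2
    simp only [h1, dif_pos]
    simp

/-- the upper bound -/
lemma upper {n k m r : ℕ} (hn : 0 < n) (hm : 0 < m) (hr : (r - 1) * k < n) (hmr : n ≤ m + r) (hr1 : 1 ≤ r)
    (G : Subgroup (Perm (Fin n))) (hG : GaloisClosed k G) : WielandtClosed m G := by
  classical
  obtain ⟨F, hF⟩ := hG
  refine ⟨{ρ | ∀ g ∈ G, ∀ r ∈ ρ, (fun j => g (r j)) ∈ ρ}, fun σ => ⟨fun hσ ρ hρ r hr => hρ σ hσ r hr, fun h => ?_⟩⟩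
  have horb : ∀ t : Fin m → Fin n, ∃ g ∈ G, ∀ j, σ (t j) = g (t j) := by
    intro t
    have h1 := h {s | ∃ g ∈ G, s = fun j => g (t j)} (by
      rintro g hg s ⟨g', hg', rfl⟩
      exact ⟨g * g', G.mul_mem hg hg', rfl⟩) t ⟨1, G.one_mem, rfl⟩
    obtain ⟨g, hg, he⟩ := h1
    exact ⟨g, hg, fun j => congrFun he j⟩
  rw [hF]
  intro f hf a
  -- a large colour class
  obtain ⟨c, hc⟩ : ∃ c : Fin k, r ≤ (univ.filter (fun i : Fin n => a i = c)).card := by
    by_contra hcon
    push Not at hcon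
    have h1 : (univ : Finset (Fin n)).card = ∑ c : Fin k, (univ.filter (fun i : Fin n => a i = c)).card :=
      Finset.card_eq_sum_card_fiberwise fun _ _ => Finset.mem_coe.2 (mem_univ _)
    have h2 : ∑ c : Fin k, (univ.filter (fun i : Fin n => a i = c)).card ≤ ∑ _c : Fin k, (r - 1) :=
      Finset.sum_le_sum fun c _ => by have := hcon c; omega
    rw [← h1, Finset.sum_const, card_univ, card_univ, Fintype.card_fin, Fintype.card_fin, smul_eq_mul, mul_comm] at h2
    omega
  let M : Finset (Fin n) := univ.filter (fun i => a (σ i) ≠ c)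
  have hMc : M.card + (univ.filter (fun i : Fin n => a i = c)).card = n := by
    have h1 : (univ.filter (fun i : Fin n => a i = c)).card = (univ.filter (fun i : Fin n => a (σ i) = c)).card := by
      refine (Finset.card_bij (fun i _ => σ i) ?_ ?_ ?_).symm
      · intro i hi
        rw [mem_filter] at hi ⊢
        exact ⟨mem_univ _, hi.2⟩
      · intro i _ j _ hij
        exact σ.injective hij
      · intro j hj
        rw [mem_filter] at hj
        exact ⟨σ.symm j, by rw [mem_filter]; exact ⟨mem_univ _, by rw [σ.apply_symm_apply]; exact hj.2⟩, σ.apply_symm_apply j⟩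
    rw [h1, add_comm]
    have h2 := Finset.card_filter_add_card_filter_not (s := (univ : Finset (Fin n))) (fun i => a (σ i) = c)
    rw [card_univ, Fintype.card_fin] at h2
    exact h2
  obtain ⟨t, ht⟩ := exists_tuple hn M (by omega) hm
  obtain ⟨g, hg, he⟩ := horb t
  have hM : ∀ i ∈ M, σ i = g i := by
    intro i hi
    obtain ⟨j, rfl⟩ := ht i hi
    exact he j
  have h3 : (fun i => a (σ i)) = fun i => a (g i) := by
    funext i
    by_cases hi : i ∈ M
    · rw [hM i hi]
    · have h4 : a (σ i) = c := by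
        by_contra hcon
        exact hi (mem_filter.2 ⟨mem_univ _, hcon⟩)
      rw [h4]
      by_contra hcon
      have h5 : σ.symm (g i) ∈ M := by
        rw [mem_filter]
        refine ⟨mem_univ _, ?_⟩
        rw [σ.apply_symm_apply]
        exact fun h => hcon h.symm
      have h6 := hM _ h5
      rw [σ.apply_symm_apply] at h6
      have h7 := g.injective h6
      rw [h7] at hi
      exact hi h5
  rw [h3]
  exact (hF g).1 hg f hf a

/-- the group of the even permutations which preserve the blocks `{i | i / k = b}` -/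
def blocks (n k : ℕ) : Subgroup (Perm (Fin n)) where
  carrier := {σ | (∀ i, ((σ i : Fin n) : ℕ) / k = (i : ℕ) / k) ∧ Perm.sign σ = 1}
  one_mem' := ⟨fun _ => rfl, map_one _⟩
  mul_mem' := by
    rintro σ τ ⟨h1, h2⟩ ⟨h3, h4⟩
    refine ⟨fun i => ?_, by rw [map_mul, h2, h4, one_mul]⟩
    rw [Perm.mul_apply, h1, h3]
  inv_mem' := by
    rintro σ ⟨h1, h2⟩
    refine ⟨fun i => ?_, by rw [map_inv, h2, inv_one]⟩
    have h3 := h1 (σ⁻¹ i)
    have h4 : σ (σ⁻¹ i) = i := σ.apply_symm_apply i
    rw [h4] at h3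
    exact h3.symm

lemma blocks_closed (n k : ℕ) (hk : 2 ≤ k) : GaloisClosed k (blocks n k) := by
  classical
  let z : Fin k := ⟨0, by omega⟩
  let o : Fin k := ⟨1, by omega⟩
  have hzo : z ≠ o := by
    intro h
    have := congrArg Fin.val h
    exact absurd this (by norm_num [z, o])
  refine ⟨{f | ∀ g ∈ blocks n k, ∀ a, f (fun i => a (g i)) = f a}, fun σ => ⟨fun hσ f hf a => hf σ hσ a, fun h => ?_⟩⟩
  have horb : ∀ a : Fin n → Fin k, ∃ g ∈ blocks n k, (fun i => a (σ i)) = fun i => a (g i) := by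
    intro a
    let f : (Fin n → Fin k) → Fin k := fun x => if ∃ g ∈ blocks n k, x = fun i => a (g i) then o else z
    have hf : ∀ g ∈ blocks n k, ∀ x, f (fun i => x (g i)) = f x := by
      intro g hg x
      have : (∃ g' ∈ blocks n k, (fun i => x (g i)) = fun i => a (g' i)) ↔ ∃ g' ∈ blocks n k, x = fun i => a (g' i) := by
        constructor
        · rintro ⟨g', hg', he⟩
          refine ⟨g' * g⁻¹, (blocks n k).mul_mem hg' ((blocks n k).inv_mem hg), ?_⟩
          funext i
          have h5 : g (g⁻¹ i) = i := g.apply_symm_apply i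
          have h6 : x (g (g⁻¹ i)) = a (g' (g⁻¹ i)) := congrFun he (g⁻¹ i)
          rw [h5] at h6
          rw [h6, Perm.mul_apply]
        · rintro ⟨g', hg', rfl⟩
          exact ⟨g' * g, (blocks n k).mul_mem hg' hg, rfl⟩
      show (if _ then o else z) = if _ then o else z
      simp only [this]
    have h1 := h f hf a
    have h2 : f a = o := if_pos ⟨1, (blocks n k).one_mem, rfl⟩
    rw [h2] at h1
    by_contra hcon
    have h3 : f (fun i => a (σ i)) = z := if_neg hcon
    rw [h3] at h1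
    exact hzo h1
  have hb : ∀ i, ((σ i : Fin n) : ℕ) / k = (i : ℕ) / k := by
    intro i
    obtain ⟨g, hg, he⟩ := horb (fun j => if (j : ℕ) / k = (i : ℕ) / k then o else z)
    have h1 := congrFun he i
    simp only [hg.1 i, if_true] at h1
    by_contra hcon
    rw [if_neg hcon] at h1
    exact hzo h1
  obtain ⟨g, hg, he⟩ := horb (fun j => ⟨(j : ℕ) % k, Nat.mod_lt _ (by omega)⟩)
  have : σ = g := by
    ext i
    have h1 := congrArg Fin.val (congrFun he i)
    have h2 : ((σ i : Fin n) : ℕ) % k = ((g i : Fin n) : ℕ) % k := h1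
    have h3 := hb i
    rw [← hg.1 i] at h3
    rw [← Nat.div_add_mod ((σ i : Fin n) : ℕ) k, ← Nat.div_add_mod ((g i : Fin n) : ℕ) k, h2, h3]
  rw [this]
  exact hg

lemma blocks_not {n k m r : ℕ} (hn : 2 ≤ n) (hk : 2 ≤ k) (hr : n ≤ r * k) (hm : m + r < n) :
    ¬ WielandtClosed m (blocks n k) := by
  classical
  rintro ⟨R, hR⟩
  let x : Fin n := ⟨0, by omega⟩
  let y : Fin n := ⟨1, by omega⟩
  have hxy : x ≠ y := by
    intro h
    have := congrArg Fin.val h
    exact absurd this (by norm_num [x, y])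
  have hx : (x : ℕ) / k = 0 := Nat.div_eq_of_lt (by show 0 < k; omega)
  have hy : (y : ℕ) / k = 0 := Nat.div_eq_of_lt (by show 1 < k; omega)
  have hsw : ∀ x y : Fin n, (x : ℕ) / k = (y : ℕ) / k → ∀ i, ((swap x y i : Fin n) : ℕ) / k = (i : ℕ) / k := by
    intro x y hxy i
    rw [swap_apply_def]
    split_ifs with h1 h2
    · rw [h1, hxy]
    · rw [h2, hxy]
    · rfl
  have hσ : swap x y ∈ blocks n k := by
    rw [hR]
    intro ρ hρ t ht
    -- two points of one block outside the tuple
    obtain ⟨x', y', hne, hb, hx', hy'⟩ : ∃ x' y' : Fin n, x' ≠ y' ∧ (x' : ℕ) / k = (y' : ℕ) / k ∧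
        (∀ j, t j ≠ x') ∧ ∀ j, t j ≠ y' := by
      let C : Finset (Fin n) := univ \ univ.image t
      have hC : r < C.card := by
        have h1 : (univ.image t).card ≤ m := by
          refine card_image_le.trans ?_
          rw [card_univ, Fintype.card_fin]
        have h2 : C.card = n - (univ.image t).card := by
          rw [card_sdiff_of_subset (subset_univ _), card_univ, Fintype.card_fin]
        omega
      have h3 : ∀ i ∈ C, (i : ℕ) / k ∈ range r := by
        intro i _
        rw [mem_range]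
        exact Nat.div_lt_of_lt_mul (by rw [mul_comm]; exact i.2.trans_le hr)
      obtain ⟨x', hx', y', hy', hne, he⟩ := exists_ne_map_eq_of_card_lt_of_maps_to (by rw [card_range]; exact hC) h3
      refine ⟨x', y', hne, he, fun j hj => ?_, fun j hj => ?_⟩
      · rw [mem_sdiff] at hx'
        exact hx'.2 (mem_image.2 ⟨j, mem_univ _, hj⟩)
      · rw [mem_sdiff] at hy'
        exact hy'.2 (mem_image.2 ⟨j, mem_univ _, hj⟩)
    have hg : swap x y * swap x' y' ∈ blocks n k := by
      refine ⟨fun i => ?_, ?_⟩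
      · rw [Perm.mul_apply, hsw x y (by rw [hx, hy]), hsw x' y' hb]
      · rw [map_mul, Perm.sign_swap hxy, Perm.sign_swap hne]
        norm_num
    have h4 := (hR _).1 hg ρ hρ t ht
    have h5 : (fun j => (swap x y * swap x' y') (t j)) = fun j => swap x y (t j) := by
      funext j
      rw [Perm.mul_apply, swap_apply_of_ne_of_ne (hx' j) (hy' j)]
    rw [h5] at h4
    exact h4
  have h6 := hσ.2
  rw [Perm.sign_swap hxy] at h6
  exact absurd h6 (by decide)

/-- For all `n, k ≥ 2` the least `m ≥ 1` such that every subgroup of `S_n` which is Galois closed over a `k`-element set is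
`m`-closed is `n - ⌈n / k⌉`. -/
theorem result (n k : ℕ) (hn : 2 ≤ n) (hk : 2 ≤ k) :
    IsLeast {m : ℕ | 1 ≤ m ∧ ∀ G : Subgroup (Perm (Fin n)), GaloisClosed k G → WielandtClosed m G} (n - ⌈(n : ℚ) / (k : ℚ)⌉₊) := by
  obtain ⟨r, hr⟩ : ∃ r, r = ⌈(n : ℚ) / (k : ℚ)⌉₊ := ⟨_, rfl⟩
  have hk0 : (0 : ℚ) < k := by exact_mod_cast (by omega : 0 < k)
  have h1 : n ≤ r * k := by
    have h := Nat.le_ceil ((n : ℚ) / (k : ℚ))
    rw [← hr, div_le_iff₀ hk0] at h
    exact_mod_cast h
  have hr1 : 1 ≤ r := by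
    by_contra hcon
    have h0 : r = 0 := by omega
    rw [h0] at h1
    omega
  have h2 : (r - 1) * k < n := by
    have h : r - 1 < ⌈(n : ℚ) / (k : ℚ)⌉₊ := by rw [← hr]; omega
    rw [Nat.lt_ceil, lt_div_iff₀ hk0] at h
    exact_mod_cast h
  have h3 : 1 ≤ n - r := by
    have h4 : (r - 1) * 2 ≤ (r - 1) * k := Nat.mul_le_mul_left _ hk
    omega
  rw [← hr]
  refine ⟨⟨h3, fun G hG => upper (by omega) (by omega) h2 (by omega) hr1 G hG⟩, ?_⟩
  rintro m ⟨_, hm2⟩
  by_contra hcon
  push Not at hcon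
  exact blocks_not hn hk h1 (by omega) (hm2 _ (blocks_closed n k hk))

end Pool.Agent.Results.MP_4c291d_al.ClosureArity
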